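import Mathlib

set_option autoImplicit false
open Finset

namespace Pool.Agent.Results.MP_7c4d4b_nt.AtLeast59

lemma exch (N : ℕ) (hN : 0 < N) (S : Finset ℕ) (hS : ∀ q ∈ S, q.Prime)
    (hc : S.card ≤ ((range (N+1)).filter Nat.Prime).card) :
    ∑ q ∈ S, (1:ℚ)/q ≤ ∑ q ∈ (range (N+1)).filter Nat.Prime, (1:ℚ)/q := by
  set T := (range (N+1)).filter Nat.Prime with hT
  have hN' : (0:ℚ) < N := by exact_mod_cast hN
  have e1 : ∑ q ∈ S, (1:ℚ)/q = ∑ q ∈ S ∩ T, (1:ℚ)/q + ∑ q ∈ S \ T, (1:ℚ)/q := by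
    rw [← Finset.sum_sdiff (Finset.inter_subset_left : S ∩ T ⊆ S), Finset.sdiff_inter_self_left, add_comm]
  have e2 : ∑ q ∈ T, (1:ℚ)/q = ∑ q ∈ T ∩ S, (1:ℚ)/q + ∑ q ∈ T \ S, (1:ℚ)/q := by
    rw [← Finset.sum_sdiff (Finset.inter_subset_left : T ∩ S ⊆ T), Finset.sdiff_inter_self_left, add_comm]
  have e3 : ∑ q ∈ S \ T, (1:ℚ)/q ≤ (S \ T).card * ((1:ℚ)/N) := by
    rw [← nsmul_eq_mul]
    apply Finset.sum_le_card_nsmul
    intro q hq
    rw [Finset.mem_sdiff] at hq
    have hqN : N < q := by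
      by_contra hh
      apply hq.2
      rw [hT, Finset.mem_filter, Finset.mem_range]
      exact ⟨by omega, hS q hq.1⟩
    apply one_div_le_one_div_of_le hN'
    exact_mod_cast hqN.le
  have e4 : (T \ S).card * ((1:ℚ)/N) ≤ ∑ q ∈ T \ S, (1:ℚ)/q := by
    rw [← nsmul_eq_mul]
    apply Finset.card_nsmul_le_sum
    intro q hq
    rw [Finset.mem_sdiff, hT, Finset.mem_filter, Finset.mem_range] at hq
    have hq0 : (0:ℚ) < q := by exact_mod_cast hq.1.2.pos
    apply one_div_le_one_div_of_le hq0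
    have : q ≤ N := by omega
    exact_mod_cast this
  have e5 : (S \ T).card ≤ (T \ S).card := by
    have a1 := Finset.card_inter_add_card_sdiff S T
    have a2 := Finset.card_inter_add_card_sdiff T S
    rw [Finset.inter_comm T S] at a2
    omega
  have e6 : ((S \ T).card : ℚ) * ((1:ℚ)/N) ≤ (T \ S).card * ((1:ℚ)/N) := by
    apply mul_le_mul_of_nonneg_right _ (by positivity)
    exact_mod_cast e5
  rw [e1, e2, Finset.inter_comm T S]
  linarith

/-- Any solution of the equation has at least `59` terms. -/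
theorem result (s : ℕ) (x : Fin s → ℕ) (hx : StrictMono x) (h1 : ∀ i, 1 < x i)
    (h : ∑ i, (1:ℚ) / (x i) + 1 / (∏ i, (x i : ℚ)) = 2) : 59 ≤ s := by
  have hx0 : ∀ i, (x i : ℚ) ≠ 0 := fun i => by have := h1 i; exact_mod_cast (by omega : x i ≠ 0)
  have hP0 : (∏ i, (x i : ℚ)) ≠ 0 := Finset.prod_ne_zero_iff.mpr (fun i _ => hx0 i)
  -- integer form
  have hint : ∑ i, ∏ j ∈ univ.erase i, x j + 1 = 2 * ∏ j, x j := by
    have : (((∑ i, ∏ j ∈ univ.erase i, x j + 1 : ℕ)) : ℚ) = ((2 * ∏ j, x j : ℕ) : ℚ) := by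
      push_cast
      rw [← h, add_mul, Finset.sum_mul, one_div_mul_cancel hP0]
      congr 1
      apply Finset.sum_congr rfl
      intro i _
      rw [← Finset.mul_prod_erase univ (fun j => (x j : ℚ)) (Finset.mem_univ i)]
      field_simp [hx0 i]
    exact_mod_cast this
  have hinj : Function.Injective (fun i => (x i).minFac) := by
    intro a b hab
    by_contra hne
    simp only at hab
    have hp : ((x a).minFac).Prime := Nat.minFac_prime (by have := h1 a; omega)
    have d1 : (x a).minFac ∣ 2 * ∏ j, x j :=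
      Dvd.dvd.mul_left ((Nat.minFac_dvd (x a)).trans (Finset.dvd_prod_of_mem x (Finset.mem_univ a))) 2
    have d2 : (x a).minFac ∣ ∑ i, ∏ j ∈ univ.erase i, x j := by
      apply Finset.dvd_sum
      intro i _
      by_cases hi : i = a
      · rw [hab]
        exact (Nat.minFac_dvd (x b)).trans (Finset.dvd_prod_of_mem x (Finset.mem_erase.mpr ⟨fun e => hne (by rw [← hi, e]), Finset.mem_univ b⟩))
      · exact (Nat.minFac_dvd (x a)).trans (Finset.dvd_prod_of_mem x (Finset.mem_erase.mpr ⟨fun e => hi e.symm, Finset.mem_univ a⟩))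
    rw [← hint] at d1
    have d3 := (Nat.dvd_add_right d2).mp d1
    exact hp.one_lt.ne' (Nat.dvd_one.mp d3)
  set S : Finset ℕ := univ.image (fun i => (x i).minFac) with hS
  have hScard : S.card = s := by
    rw [hS, Finset.card_image_of_injective _ hinj, Finset.card_univ, Fintype.card_fin]
  have hSp : ∀ q ∈ S, q.Prime := by
    intro q hq
    rw [hS, Finset.mem_image] at hq
    obtain ⟨i, _, rfl⟩ := hq
    exact Nat.minFac_prime (by have := h1 i; omega)
  have hle : ∑ i, (1:ℚ) / (x i) ≤ ∑ q ∈ S, (1:ℚ)/q := by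
    rw [hS, Finset.sum_image (fun a _ b _ hab => hinj hab)]
    apply Finset.sum_le_sum
    intro i _
    have hm : (0:ℚ) < ((x i).minFac : ℚ) := by exact_mod_cast Nat.minFac_pos _
    apply one_div_le_one_div_of_le hm
    exact_mod_cast Nat.minFac_le (by have := h1 i; omega)
  have hprod : (2:ℚ)^s ≤ ∏ i, (x i : ℚ) := by
    have := Finset.prod_le_prod (s := (univ : Finset (Fin s))) (f := fun _ => (2:ℚ)) (g := fun i => (x i : ℚ))
      (fun _ _ => by norm_num) (fun i _ => by exact_mod_cast h1 i)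
    simpa using this
  by_contra hcon
  push Not at hcon
  by_cases hs9 : s ≤ 9
  · have c1 := exch 23 (by norm_num) S hSp (by rw [hScard]; exact le_trans hs9 (by decide +kernel))
    have c2 : ∑ q ∈ (range (23+1)).filter Nat.Prime, (1:ℚ)/q < 3/2 := by decide +kernel
    by_cases hs0 : s = 0
    · subst hs0
      simp at h
    · have c3 : (2:ℚ)^1 ≤ 2^s := pow_le_pow_right₀ (by norm_num) (by omega)
      have c4 : 1 / (∏ i, (x i : ℚ)) ≤ 1/2 := one_div_le_one_div_of_le (by norm_num) (by linarith)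
      linarith
  · have c1 := exch 271 (by norm_num) S hSp (by rw [hScard]; exact le_trans (by omega : s ≤ 58) (by decide +kernel))
    have c2 : ∑ q ∈ (range (271+1)).filter Nat.Prime, (1:ℚ)/q < 1999/1000 := by decide +kernel
    have c3 : (2:ℚ)^10 ≤ 2^s := pow_le_pow_right₀ (by norm_num) (by omega)
    have c4 : 1 / (∏ i, (x i : ℚ)) ≤ 1/1024 := one_div_le_one_div_of_le (by norm_num) (by linarith)
    linarith

end Pool.Agent.Results.MP_7c4d4b_nt.AtLeast59
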